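import Mathlib
import Pool.Agent.H86.EH.Frac2

set_option autoImplicit false

namespace Pool.Agent.Results.MP_db704b_co.Fractional

open Pool.Agent.H86.EH

/-- If the fractional chromatic number exceeds `C (log Δ)^C` then some subgraph of girth at least
`g` has fractional chromatic number larger than `k`. -/
theorem result :
    ∀ k g : ℕ, ∃ C : ℕ, ∀ (V : Type) [Fintype V] [DecidableEq V] (G : SimpleGraph V)
      [DecidableRel G.Adj],
      ¬ FracColorable G (C * (Nat.log 2 (G.maxDegree + 2) : ℝ) ^ C) →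
      ∃ H : SimpleGraph V, H ≤ G ∧ (g : ℕ∞) ≤ H.egirth ∧ ¬ FracColorable H k := by
  intro k g
  wlog hk : 1 ≤ k generalizing k
  · obtain ⟨C, hC⟩ := this 1 le_rfl
    refine ⟨C, fun V _ _ G _ h => ?_⟩
    obtain ⟨H, h1, h2, h3⟩ := hC V G h
    refine ⟨H, h1, h2, ?_⟩
    rintro ⟨w, w1, w2, w3, w4⟩
    refine h3 ⟨w, w1, w2, w3, w4.trans ?_⟩
    have : k ≤ 1 := by omega
    exact_mod_cast this
  obtain ⟨C, hC1, hC⟩ := hall_polylog k (max g 1) hk (le_max_right _ _)
  refine ⟨16 * C + 1, ?_⟩
  intro V _ _ G _ hG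
  by_contra hcon
  push Not at hcon
  have hbad : HallBad k (max g 1) G := by
    intro H hHG hHg U hU
    have hgH : (g : ℕ∞) ≤ H.egirth := by
      refine le_trans ?_ hHg
      exact_mod_cast le_max_left g 1
    exact indep_of_frac H k hk (hcon H hHG hgH) U hU
  set L := Nat.log 2 (G.maxDegree + 2) with hL
  have hL1 : 1 ≤ L := by
    rw [hL]
    exact Nat.log_pos (by norm_num) (by omega)
  apply hG
  apply frac_of_weights G _ (by positivity)
  intro μ hμ
  have hdeg : ∀ u : V, ∀ (inst : DecidablePred fun x => G.Adj u x),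
      (@Finset.filter V (fun x => G.Adj u x) inst Finset.univ).card ≤ G.maxDegree := by
    intro u inst
    refine le_trans ?_ (G.degree_le_maxDegree u)
    rw [← G.card_neighborFinset_eq_degree]
    apply Finset.card_le_card
    intro x hx
    rw [SimpleGraph.mem_neighborFinset]
    simp only [Finset.mem_filter] at hx
    exact hx.2
  obtain ⟨I, hI, hIw⟩ := weight_of_hall G G.maxDegree (C * L ^ C) (fun u => hdeg u _)
    (fun U hU => by
      refine hC V G hbad U hU G.maxDegree ?_
      intro u _
      refine le_trans ?_ (hdeg u (Classical.decPred _))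
      apply Finset.card_le_card
      intro x hx
      simp only [Finset.mem_filter] at hx ⊢
      exact ⟨Finset.mem_univ x, hx.2⟩) μ hμ
  refine ⟨I, fun a ha b hb _ => hI a (Finset.mem_coe.1 ha) b (Finset.mem_coe.1 hb), ?_⟩
  refine hIw.trans ?_
  apply mul_le_mul_of_nonneg_right _ (Finset.sum_nonneg fun v _ => hμ v)
  have h1 : 4 * (C * L ^ C) * (L + 3) ≤ (16 * C + 1) * L ^ (16 * C + 1) := by
    calc 4 * (C * L ^ C) * (L + 3) ≤ 4 * (C * L ^ C) * (4 * L) :=
          Nat.mul_le_mul_left _ (by omega)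
      _ = 16 * C * L ^ (C + 1) := by ring
      _ ≤ (16 * C + 1) * L ^ (16 * C + 1) := by
          apply Nat.mul_le_mul (by omega)
          exact Nat.pow_le_pow_right hL1 (by omega)
  rw [← hL]
  exact_mod_cast h1

end Pool.Agent.Results.MP_db704b_co.Fractional
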