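import Mathlib
import Pool.Agent.H86.EH.Polylog

set_option autoImplicit false

namespace Pool.Agent.Results.MP_db704b_co.HallRatio

open Pool.Agent.H86.EH

/-- If the independence number is smaller than `n / (C (log d)^C)`, `d` the average degree, then
some subgraph of girth at least `g` has Hall ratio larger than `k`. -/
theorem result :
    ∀ k g : ℕ, ∃ C : ℕ, ∀ (V : Type) [Fintype V] (G : SimpleGraph V) [DecidableRel G.Adj],
      C * Nat.log 2 (2 * G.edgeFinset.card / Fintype.card V + 2) ^ C * G.indepNum <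
        Fintype.card V →
      ∃ H : SimpleGraph V, H ≤ G ∧ (g : ℕ∞) ≤ H.egirth ∧
        ∃ U : Finset V, U.Nonempty ∧
          ∀ S ⊆ U, H.IsIndepSet (S : Set V) → k * S.card < U.card := by
  classical
  intro k g
  rcases Nat.eq_zero_or_pos k with rfl | hk
  · refine ⟨0, fun V _ G _ h => ⟨⊥, bot_le, by simp, Finset.univ, ?_, ?_⟩⟩
    · rw [← Finset.card_pos, Finset.card_univ]
      omega
    · intro S _ _
      rw [Finset.card_univ]
      omega
  obtain ⟨C, hC1, hC⟩ := hall_polylog k (max g 1) hk (le_max_right _ _)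
  refine ⟨2 ^ (C + 1) * C, ?_⟩
  intro V _ G _ hlt
  by_contra hcon
  push Not at hcon
  have hn : 0 < Fintype.card V := by omega
  have hbad : HallBad k (max g 1) G := by
    intro H hHG hHg U hU
    have hgH : (g : ℕ∞) ≤ H.egirth := by
      refine le_trans ?_ hHg
      exact_mod_cast le_max_left g 1
    obtain ⟨S, hSU, hSi, hSc⟩ := hcon H hHG hgH U hU
    refine ⟨S, hSU, hSc, ?_⟩
    intro a ha b hb hab
    exact hSi (Finset.mem_coe.2 ha) (Finset.mem_coe.2 hb) hab.ne hab
  set d := 2 * G.edgeFinset.card / Fintype.card V with hd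
  have hsum : ∑ u ∈ (Finset.univ : Finset V), (G.degree u : ℝ) ≤
      ((d : ℝ) + 1) * (Finset.univ : Finset V).card := by
    have h1 := G.sum_degrees_eq_twice_card_edges
    have h2 : 2 * G.edgeFinset.card ≤ (d + 1) * Fintype.card V := by
      have := Nat.lt_div_mul_add (a := 2 * G.edgeFinset.card) hn
      rw [← hd] at this
      nlinarith
    rw [Finset.card_univ]
    rw [← h1] at h2
    exact_mod_cast h2
  have hm := markov Finset.univ (fun u => (G.degree u : ℝ)) (fun _ _ => by positivity)
    ((d : ℝ) + 1) (by positivity) hsum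
  set T := (Finset.univ : Finset V).filter fun u => (G.degree u : ℝ) ≤ 2 * ((d : ℝ) + 1) with hT
  rw [Finset.card_univ] at hm
  have hm' : Fintype.card V ≤ 2 * T.card := by exact_mod_cast hm
  have hTne : T.Nonempty := by
    rw [← Finset.card_pos]
    omega
  obtain ⟨I, _, hIi, hIc⟩ := hC V G hbad T hTne (2 * (d + 1)) (by
    intro u hu
    have h1 : (G.degree u : ℝ) ≤ 2 * ((d : ℝ) + 1) := (Finset.mem_filter.1 hu).2
    have h2 : G.degree u ≤ 2 * (d + 1) := by exact_mod_cast h1
    refine le_trans ?_ h2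
    rw [← G.card_neighborFinset_eq_degree]
    apply Finset.card_le_card
    intro x hx
    rw [SimpleGraph.mem_neighborFinset]
    simp only [Finset.mem_filter] at hx
    exact hx.2)
  have hI : I.card ≤ G.indepNum := by
    apply SimpleGraph.IsIndepSet.card_le_indepNum
    intro a ha b hb _ hab
    exact hIi a (Finset.mem_coe.1 ha) b (Finset.mem_coe.1 hb) hab
  have hlog : Nat.log 2 (2 * (d + 1) + 2) = Nat.log 2 (d + 2) + 1 := by
    have : 2 * (d + 1) + 2 = (d + 2) * 2 := by ring
    rw [this, Nat.log_mul_base (by norm_num) (Nat.succ_ne_zero (d + 1))]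
  set L := Nat.log 2 (d + 2) with hL
  have hL1 : 1 ≤ L := by
    rw [hL]
    exact Nat.log_pos (by norm_num) (Nat.le_add_left 2 d)
  rw [hlog] at hIc
  have h5 : Fintype.card V ≤ 2 ^ (C + 1) * C * L ^ (2 ^ (C + 1) * C) * G.indepNum := by
    calc Fintype.card V ≤ 2 * T.card := hm'
      _ ≤ 2 * (C * (L + 1) ^ C * I.card) := Nat.mul_le_mul_left _ hIc
      _ ≤ 2 * (C * (2 * L) ^ C * G.indepNum) := by
          apply Nat.mul_le_mul_left
          apply Nat.mul_le_mul _ hI
          apply Nat.mul_le_mul_left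
          exact Nat.pow_le_pow_left (by omega) _
      _ = 2 ^ (C + 1) * C * L ^ C * G.indepNum := by rw [mul_pow]; ring
      _ ≤ 2 ^ (C + 1) * C * L ^ (2 ^ (C + 1) * C) * G.indepNum := by
          apply Nat.mul_le_mul_right
          apply Nat.mul_le_mul_left
          apply Nat.pow_le_pow_right hL1
          exact Nat.le_mul_of_pos_left _ (by positivity)
  omega

end Pool.Agent.Results.MP_db704b_co.HallRatio
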