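import Mathlib
import Pool.Agent.H86.EH.Theta4

set_option autoImplicit false

/-!
# The Erdős–Hajnal statement for graphs with average degree much larger than `|λ_min|`

For all `k` and `g` there is a constant `C` such that every finite graph whose average degree is at
least `C` times the absolute value of its least eigenvalue has a subgraph of girth at least `g` and
of (fractional) chromatic number larger than `k`. More generally it is enough that the edges have
nonnegative weights `W` with `W + I` positive semidefinite and average row sum at least `C` on some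
nonempty vertex set. There is no condition on the maximum degree or the row sums.

Outline of the proof. Let `U₀` be the vertex set of largest density. By the Cauchy–Schwarz inequality
for the form `W + I` the vertices of `U₀` whose row sum is more than eight times the density are
few, and after their removal the density of the rest `U` is of the same order. The form also shows
that every `S ⊆ U` with a proportion `1 / k` of the weight spans a weight at least `c |U| f`,
`f` the average row sum in `U`. Choose the edges inside `U` independently with probability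
`K W / f`: all these sets `S` still span many edges, and there are few short cycles.
-/

namespace Pool.Agent.Results.MP_db704b_co.Spectral

open Pool.Agent.H86.EH Finset

theorem result :
    ∀ k g : ℕ, ∃ C : ℝ, 0 < C ∧
      (∀ (V : Type) [Fintype V] [DecidableEq V] (G : SimpleGraph V) (W : Matrix V V ℝ)
        (U : Finset V),
        (W + 1).PosSemidef → (∀ u v, 0 ≤ W u v) → (∀ u v, ¬ G.Adj u v → W u v = 0) →
        U.Nonempty → C * #U ≤ ∑ u ∈ U, ∑ v ∈ U, W u v →
        ∃ H : SimpleGraph V, H ≤ G ∧ (g : ℕ∞) ≤ H.egirth ∧ (k : ℕ∞) < H.chromaticNumber ∧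
          ¬ FracColorable H k) ∧
      (∀ (V : Type) [Fintype V] [Nonempty V] [DecidableEq V] (G : SimpleGraph V)
        [DecidableRel G.Adj] (s : ℝ),
        0 < s → (G.adjMatrix ℝ + s • (1 : Matrix V V ℝ)).PosSemidef →
        C * s * Fintype.card V ≤ ∑ v, (G.degree v : ℝ) →
        ∃ H : SimpleGraph V, H ≤ G ∧ (g : ℕ∞) ≤ H.egirth ∧ (k : ℕ∞) < H.chromaticNumber ∧
          ¬ FracColorable H k) := by
  intro k g
  obtain ⟨C, hC0, hC⟩ := uniform_core (max k 1) g (le_max_right _ _)
  have main : ∀ (V : Type) [Fintype V] [DecidableEq V] (G : SimpleGraph V) (W : Matrix V V ℝ)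
        (U : Finset V),
        (W + 1).PosSemidef → (∀ u v, 0 ≤ W u v) → (∀ u v, ¬ G.Adj u v → W u v = 0) →
        U.Nonempty → C * #U ≤ ∑ u ∈ U, ∑ v ∈ U, W u v →
        ∃ H : SimpleGraph V, H ≤ G ∧ (g : ℕ∞) ≤ H.egirth ∧ (k : ℕ∞) < H.chromaticNumber ∧
          ¬ FracColorable H k := by
    intro V _ _ G W U hW h0 hG hU hCU
    obtain ⟨H, hHG, hHg, hH⟩ := hC V G W hW h0 hG U hU hCU
    have hk : ¬ FracColorable H k := fun h => hH (frac_mono H (by
      exact_mod_cast le_max_left k 1) h)
    exact ⟨H, hHG, hHg, lt_chromatic_of_not_frac H k hk, hk⟩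
  refine ⟨C, hC0, main, ?_⟩
  intro V _ _ _ G _ s hs hA hdeg
  refine main V G (s⁻¹ • G.adjMatrix ℝ) Finset.univ ?_ ?_ ?_ Finset.univ_nonempty ?_
  · have h1 := hA.smul (show (0 : ℝ) ≤ s⁻¹ by positivity)
    rw [smul_add, smul_smul, inv_mul_cancel₀ hs.ne', one_smul] at h1
    exact h1
  · intro u v
    rw [Matrix.smul_apply, SimpleGraph.adjMatrix_apply, smul_eq_mul]
    split_ifs
    · positivity
    · simp
  · intro u v huv
    rw [Matrix.smul_apply, SimpleGraph.adjMatrix_apply, if_neg huv, smul_zero]
  · have h1 : ∑ u, ∑ v, (s⁻¹ • G.adjMatrix ℝ) u v = s⁻¹ * ∑ v, (G.degree v : ℝ) := by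
      rw [Finset.mul_sum]
      refine Finset.sum_congr rfl fun u _ => ?_
      simp only [Matrix.smul_apply, smul_eq_mul, ← Finset.mul_sum]
      congr 1
      rw [← G.card_neighborFinset_eq_degree]
      simp [SimpleGraph.adjMatrix_apply, SimpleGraph.neighborFinset_eq_filter]
    rw [h1, Finset.card_univ]
    calc C * (Fintype.card V : ℝ) = s⁻¹ * (C * s * Fintype.card V) := by field_simp
      _ ≤ _ := mul_le_mul_of_nonneg_left hdeg (by positivity)

end Pool.Agent.Results.MP_db704b_co.Spectral
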