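import Mathlib
import Pool.Agent.H86.EH.VecCore

set_option autoImplicit false

/-!
# The Erdős–Hajnal statement for graphs whose vector chromatic number is at least `C log Δ`

For all `k` and `g` there is a constant `C` such that every finite graph of maximum degree `Δ` whose
vector chromatic number is larger than `C log₂ (Δ + 2)` has a subgraph of girth at least `g` and of
(fractional) chromatic number larger than `k`.

Outline of the proof. By duality there are nonnegative weights `W` of the edges with `W + I` positive
semidefinite and a vector `x ≥ 0` with `xᵀ W x ≥ c log Δ |x|²`. Put the vertices into levels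
according to the integer part of `log₂ x`. The form `W + I` allows to split the vertex set into
`O(log Δ)` classes with a loss of a factor `O(log Δ)`, such that two vertices of one class are in
the same level or have `x`-values with quotient at least `Δ`. The pairs of the second kind contribute
`O(|x|²)` only, so some level has large density with uniform weights, and `Spectral` applies.
-/

namespace Pool.Agent.Results.MP_db704b_co.VectorChromatic

open Pool.Agent.H86.EH

theorem result :
    ∀ k g : ℕ, ∃ C : ℝ, 0 < C ∧ ∀ (V : Type) [Fintype V] [DecidableEq V] (G : SimpleGraph V)
      [DecidableRel G.Adj],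
      ¬ VecColorable G (C * Nat.log 2 (G.maxDegree + 2)) →
      ∃ H : SimpleGraph V, H ≤ G ∧ (g : ℕ∞) ≤ H.egirth ∧ (k : ℕ∞) < H.chromaticNumber ∧
        ¬ FracColorable H k := by
  intro k g
  obtain ⟨C, hC0, hC⟩ := vector_core (max k 1) g (le_max_right _ _)
  refine ⟨C, hC0, ?_⟩
  intro V _ _ G _ h
  obtain ⟨H, hHG, hHg, hH⟩ := hC V G h
  have hk : ¬ FracColorable H k := fun h => hH (frac_mono H (by
    exact_mod_cast le_max_left k 1) h)
  exact ⟨H, hHG, hHg, lt_chromatic_of_not_frac H k hk, hk⟩

end Pool.Agent.Results.MP_db704b_co.VectorChromatic
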